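import Pool.Agent.H34.TAM.Stmts3
import Pool.Agent.H22.AUT.TDR

/-!
# Board per (MP_286349_an), row NUF
-/

set_option autoImplicit false

noncomputable section

open Filter
open scoped Topology TensorProduct

namespace Pool.PER

open Pool.CGR Pool.CGS Pool.TAM Pool.AUT MulOpposite

namespace NUF40

section words

variable {m : ℕ}

theorem wd_cons (j : Fin m) (v : List (Fin m)) : wd (j :: v) = io j * wd v := by
  simp [wd]

theorem wd_app (u v : List (Fin m)) : wd (u ++ v) = wd u * wd v := by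
  simp [wd]

theorem tt_tmul (t : Fr m →ₗ[ℂ] ℂ) (a b : Fr m) : tt t (a ⊗ₜ[ℂ] op b) = t a * t b := rfl

theorem mul_tmul (a b c d : Fr m) :
    (a ⊗ₜ[ℂ] op b : Te m) * (c ⊗ₜ[ℂ] op d) = (a * c) ⊗ₜ[ℂ] op (d * b) := by
  rw [Algebra.TensorProduct.tmul_mul_tmul, ← op_mul]

theorem D_one {D : Fin m → (Fr m →ₗ[ℂ] Te m)} (hD : IsPd D) (k : Fin m) : D k 1 = 0 := by
  have h := hD.mul k 1 1
  have e1 : ((1 : Fr m) ⊗ₜ[ℂ] (1 : (Fr m)ᵐᵒᵖ) : Te m) = 1 := rfl
  rw [op_one, e1, one_mul, one_mul] at h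
  exact left_eq_add.1 h

theorem dw {D : Fin m → (Fr m →ₗ[ℂ] Te m)} (hD : IsPd D) (k : Fin m) (K : ℝ) (hK : 0 ≤ K)
    (v : List (Fin m)) : ∀ Φ : Te m → ℂ, (∀ z z', Φ (z + z') = Φ z + Φ z') →
    (∀ p s : List (Fin m), p.length + s.length ≤ v.length →
      ‖Φ (wd p ⊗ₜ[ℂ] op (wd s))‖ ≤ K) → ‖Φ (D k (wd v))‖ ≤ v.length * K := by
  induction v with
  | nil =>
    intro Φ hadd _
    have h0 : Φ 0 = 0 := by
      have := hadd 0 0
      rw [add_zero] at this
      exact left_eq_add.1 this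
    have e : wd ([] : List (Fin m)) = 1 := rfl
    rw [e, D_one hD, h0]
    simp
  | cons j v ih =>
    intro Φ hadd h
    have h0 : Φ 0 = 0 := by
      have := hadd 0 0
      rw [add_zero] at this
      exact left_eq_add.1 this
    rw [wd_cons, hD.mul, hadd]
    have e1 : ‖Φ ((io j ⊗ₜ[ℂ] (1 : (Fr m)ᵐᵒᵖ) : Te m) * D k (wd v))‖ ≤ v.length * K := by
      refine ih (fun z => Φ ((io j ⊗ₜ[ℂ] (1 : (Fr m)ᵐᵒᵖ) : Te m) * z)) ?_ ?_
      · intro z z'
        show Φ _ = Φ _ + Φ _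
        rw [mul_add, hadd]
      · intro p s hps
        have e : (io j ⊗ₜ[ℂ] (1 : (Fr m)ᵐᵒᵖ) : Te m) * (wd p ⊗ₜ[ℂ] op (wd s)) =
            wd (j :: p) ⊗ₜ[ℂ] op (wd s) := by
          have := mul_tmul (io j) 1 (wd p) (wd s)
          rw [op_one, mul_one] at this
          rw [this, wd_cons]
        show ‖Φ _‖ ≤ K
        rw [e]
        apply h
        rw [List.length_cons, List.length_cons]
        omega
    have e2 : ‖Φ (((1 : Fr m) ⊗ₜ[ℂ] op (wd v) : Te m) * D k (io j))‖ ≤ K := by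
      rw [hD.gen]
      split_ifs
      · rw [mul_one]
        have := h [] v (by simp)
        exact this
      · rw [mul_zero, h0, norm_zero]
        exact hK
    refine (norm_add_le _ _).trans ?_
    rw [List.length_cons]
    push_cast
    linarith

end words

section est

variable {m : ℕ} {A : Type} [CStarAlgebra A] {τ : A →ₗ[ℂ] ℂ} {x : Fin m → A} {r : ℝ}

theorem norm_wd (hτ : IsTrace τ) (hx : ∀ i, ‖x i‖ ≤ r) (hr : 1 ≤ r) (p : List (Fin m)) :
    ‖FreeAlgebra.lift ℂ x (wd p)‖ ≤ r ^ p.length := by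
  have hnt : Nontrivial A := by
    refine ⟨1, 0, ?_⟩
    intro h
    have h1 := hτ.one
    rw [h, map_zero] at h1
    exact zero_ne_one h1
  induction p with
  | nil =>
    have e : wd ([] : List (Fin m)) = 1 := rfl
    rw [e, map_one, List.length_nil, pow_zero, CStarRing.norm_one]
  | cons j p ih =>
    rw [wd_cons, map_mul, FreeAlgebra.lift_ι_apply, List.length_cons, pow_succ, mul_comm (r ^ _)]
    exact (norm_mul_le _ _).trans (mul_le_mul (hx j) ih (norm_nonneg _) (by linarith))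

theorem n2_wd (hN : N2MStmt) (hτ : IsTrace τ) (hx : ∀ i, ‖x i‖ ≤ r) (hr : 1 ≤ r)
    (p s : List (Fin m)) (q : Fr m) :
    n2 τ (FreeAlgebra.lift ℂ x (wd p * q * wd s)) ≤
      r ^ (p.length + s.length) * n2 τ (FreeAlgebra.lift ℂ x q) := by
  have h0 : 0 ≤ n2 τ (FreeAlgebra.lift ℂ x q) := Real.sqrt_nonneg _
  have hr0 : 0 ≤ r := by linarith
  rw [map_mul, map_mul]
  have h1 := (hN A τ hτ (FreeAlgebra.lift ℂ x (wd p) * FreeAlgebra.lift ℂ x q)
    (FreeAlgebra.lift ℂ x (wd s))).2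
  have h2 := (hN A τ hτ (FreeAlgebra.lift ℂ x (wd p)) (FreeAlgebra.lift ℂ x q)).1
  have h3 := norm_wd hτ hx hr p
  have h4 := norm_wd hτ hx hr s
  calc n2 τ (FreeAlgebra.lift ℂ x (wd p) * FreeAlgebra.lift ℂ x q * FreeAlgebra.lift ℂ x (wd s))
      ≤ n2 τ (FreeAlgebra.lift ℂ x (wd p) * FreeAlgebra.lift ℂ x q) *
          ‖FreeAlgebra.lift ℂ x (wd s)‖ := h1
    _ ≤ (r ^ p.length * n2 τ (FreeAlgebra.lift ℂ x q)) * r ^ s.length := by
        refine mul_le_mul (h2.trans (mul_le_mul_of_nonneg_right h3 h0)) h4 (norm_nonneg _) ?_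
        positivity
    _ = r ^ (p.length + s.length) * n2 τ (FreeAlgebra.lift ℂ x q) := by
        rw [pow_add]
        ring

theorem tau_le (hτ : IsTrace τ) (a : A) : ‖τ a‖ ≤ n2 τ a := by
  have h := (two_thm A τ hτ).1 a 1
  have h1 : n2 τ (1 : A) = 1 := by
    unfold n2
    rw [star_one, one_mul, hτ.one]
    simp
  rwa [mul_one, h1, mul_one] at h

/-- the basic estimate -/
theorem basic (hN : N2MStmt) (hτ : IsTrace τ) (hx : ∀ i, ‖x i‖ ≤ r) (hr : 1 ≤ r)
    (p s w : List (Fin m)) (q : Fr m) (n : ℕ) (hn : p.length + s.length + w.length ≤ n) :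
    ‖tx τ x (wd p * q * wd s) * tx τ x (wd w)‖ ≤ r ^ n * n2 τ (FreeAlgebra.lift ℂ x q) := by
  have h0 : 0 ≤ n2 τ (FreeAlgebra.lift ℂ x q) := Real.sqrt_nonneg _
  have hr0 : 0 ≤ r := by linarith
  have h1 : ‖tx τ x (wd p * q * wd s)‖ ≤
      r ^ (p.length + s.length) * n2 τ (FreeAlgebra.lift ℂ x q) :=
    (tau_le hτ _).trans (n2_wd hN hτ hx hr p s q)
  have h2 : ‖tx τ x (wd w)‖ ≤ r ^ w.length :=
    (hτ.norm _).trans (norm_wd hτ hx hr w)
  rw [norm_mul]
  calc ‖tx τ x (wd p * q * wd s)‖ * ‖tx τ x (wd w)‖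
      ≤ (r ^ (p.length + s.length) * n2 τ (FreeAlgebra.lift ℂ x q)) * r ^ w.length :=
        mul_le_mul h1 h2 (norm_nonneg _) (by positivity)
    _ = r ^ (p.length + s.length + w.length) * n2 τ (FreeAlgebra.lift ℂ x q) := by
        rw [pow_add r (p.length + s.length)]
        ring
    _ ≤ r ^ n * n2 τ (FreeAlgebra.lift ℂ x q) :=
        mul_le_mul_of_nonneg_right (pow_le_pow_right₀ hr hn) h0

/-- the estimate for words -/
theorem word (hN : N2MStmt) (hτ : IsTrace τ) (hx : ∀ i, ‖x i‖ ≤ r) (hr : 1 ≤ r)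
    {D : Fin m → (Fr m →ₗ[ℂ] Te m)} (hD : IsPd D) (C : ℝ)
    (hC : ∀ k q, ‖tt (tx τ x) (D k q)‖ ≤ C * n2 τ (FreeAlgebra.lift ℂ x q)) (hC0 : 0 ≤ C)
    (k : Fin m) (q : Fr m) (u v u' v' : List (Fin m)) :
    ‖tt (tx τ x) (D k (wd u * q * wd v) * (wd u' ⊗ₜ[ℂ] op (wd v')))‖ ≤
      (C + 4) * wt r u v * n2 τ (FreeAlgebra.lift ℂ x q) * wt r u' v' := by
  set t := tx τ x with ht
  have htr : ∀ a b, t (a * b) = t (b * a) := by
    intro a b
    show τ (FreeAlgebra.lift ℂ x (a * b)) = τ (FreeAlgebra.lift ℂ x (b * a))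
    rw [map_mul (FreeAlgebra.lift ℂ x) a b, map_mul (FreeAlgebra.lift ℂ x) b a, hτ.comm]
  have hT := (tdr_thm m).2 t
  set Nq := n2 τ (FreeAlgebra.lift ℂ x q) with hNq
  have hNq0 : 0 ≤ Nq := Real.sqrt_nonneg _
  have hr0 : 0 ≤ r := by linarith
  set n := u.length + v.length + (u'.length + v'.length) with hn
  set R := r ^ n with hR
  have hR0 : 0 ≤ R := pow_nonneg hr0 _
  have hRN : 0 ≤ R * Nq := mul_nonneg hR0 hNq0
  -- the product rule
  have hprod : ∀ a b : Fr m, D k (a * q * b) = ((a * q) ⊗ₜ[ℂ] op 1) * D k b +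
      (a ⊗ₜ[ℂ] op b) * D k q + ((1 : Fr m) ⊗ₜ[ℂ] op (q * b)) * D k a := by
    intro a b
    rw [hD.mul, hD.mul, mul_add, ← mul_assoc, ← mul_assoc]
    have e1 : ((1 : Fr m) ⊗ₜ[ℂ] op b : Te m) * (a ⊗ₜ[ℂ] (1 : (Fr m)ᵐᵒᵖ)) = a ⊗ₜ[ℂ] op b := by
      have := mul_tmul 1 b a 1
      rw [one_mul, one_mul, op_one] at this
      exact this
    have e2 : ((1 : Fr m) ⊗ₜ[ℂ] op b : Te m) * ((1 : Fr m) ⊗ₜ[ℂ] op q) =
        (1 : Fr m) ⊗ₜ[ℂ] op (q * b) := by
      have := mul_tmul 1 b 1 q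
      rw [one_mul] at this
      exact this
    rw [e1, e2, op_one]
    abel
  -- term 1
  have t1 : ‖tt t ((((wd u * q) ⊗ₜ[ℂ] op 1) * D k (wd v)) * (wd u' ⊗ₜ[ℂ] op (wd v')))‖ ≤
      v.length * (R * Nq) := by
    refine dw hD k (R * Nq) hRN v
      (fun z => tt t ((((wd u * q) ⊗ₜ[ℂ] op 1) * z) * (wd u' ⊗ₜ[ℂ] op (wd v')))) ?_ ?_
    · intro z z'
      show tt t _ = tt t _ + tt t _
      rw [mul_add, add_mul, map_add]
    · intro p s hps
      show ‖tt t _‖ ≤ _
      rw [mul_tmul, mul_tmul, tt_tmul]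
      have e1 : wd u * q * wd p * wd u' = wd u * q * wd (p ++ u') := by
        rw [wd_app, mul_assoc]
      have e2 : wd v' * (wd s * 1) = wd (v' ++ s) := by
        rw [wd_app, mul_one]
      rw [e1, e2]
      refine basic hN hτ hx hr u (p ++ u') (v' ++ s) q n ?_
      rw [List.length_append, List.length_append]
      omega
  -- term 3
  have t3 : ‖tt t ((((1 : Fr m) ⊗ₜ[ℂ] op (q * wd v)) * D k (wd u)) *
      (wd u' ⊗ₜ[ℂ] op (wd v')))‖ ≤ u.length * (R * Nq) := by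
    refine dw hD k (R * Nq) hRN u
      (fun z => tt t ((((1 : Fr m) ⊗ₜ[ℂ] op (q * wd v)) * z) * (wd u' ⊗ₜ[ℂ] op (wd v')))) ?_ ?_
    · intro z z'
      show tt t _ = tt t _ + tt t _
      rw [mul_add, add_mul, map_add]
    · intro p s hps
      show ‖tt t _‖ ≤ _
      rw [mul_tmul, mul_tmul, tt_tmul]
      have e1 : 1 * wd p * wd u' = wd (p ++ u') := by
        rw [wd_app, one_mul]
      have e2 : wd v' * (wd s * (q * wd v)) = wd (v' ++ s) * q * wd v := by
        rw [wd_app]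
        simp only [mul_assoc]
      rw [e1, e2, mul_comm]
      refine basic hN hτ hx hr (v' ++ s) v (p ++ u') q n ?_
      rw [List.length_append, List.length_append]
      omega
  -- term 2
  have t2 : ‖tt t (((wd u ⊗ₜ[ℂ] op (wd v)) * D k q) * (wd u' ⊗ₜ[ℂ] op (wd v')))‖ ≤
      (C + (u.length + v.length + (u'.length + v'.length))) * (R * Nq) := by
    rw [hT.1 htr, ← mul_assoc, mul_tmul, ← wd_app, ← wd_app]
    have h1 := hprod (wd (u' ++ u)) (wd (v ++ v'))
    have h2 : tt t ((wd (u' ++ u) ⊗ₜ[ℂ] op (wd (v ++ v'))) * D k q) =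
        tt t (D k (wd (u' ++ u) * q * wd (v ++ v'))) -
        tt t (((wd (u' ++ u) * q) ⊗ₜ[ℂ] op 1) * D k (wd (v ++ v'))) -
        tt t (((1 : Fr m) ⊗ₜ[ℂ] op (q * wd (v ++ v'))) * D k (wd (u' ++ u))) := by
      rw [h1, map_add, map_add]
      ring
    have b1 : ‖tt t (D k (wd (u' ++ u) * q * wd (v ++ v')))‖ ≤ C * (R * Nq) := by
      refine (hC k _).trans (mul_le_mul_of_nonneg_left ?_ hC0)
      refine (n2_wd hN hτ hx hr _ _ _).trans (le_of_eq ?_)
      rw [hR, hn, List.length_append, List.length_append]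
      congr 2
      omega
    have b2 : ‖tt t (((wd (u' ++ u) * q) ⊗ₜ[ℂ] op 1) * D k (wd (v ++ v')))‖ ≤
        (v ++ v').length * (R * Nq) := by
      refine dw hD k (R * Nq) hRN (v ++ v')
        (fun z => tt t (((wd (u' ++ u) * q) ⊗ₜ[ℂ] op 1) * z)) ?_ ?_
      · intro z z'
        show tt t _ = tt t _ + tt t _
        rw [mul_add, map_add]
      · intro p s hps
        show ‖tt t _‖ ≤ _
        rw [mul_tmul, tt_tmul, mul_one]
        refine basic hN hτ hx hr (u' ++ u) p s q n ?_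
        rw [List.length_append] at hps ⊢
        omega
    have b3 : ‖tt t (((1 : Fr m) ⊗ₜ[ℂ] op (q * wd (v ++ v'))) * D k (wd (u' ++ u)))‖ ≤
        (u' ++ u).length * (R * Nq) := by
      refine dw hD k (R * Nq) hRN (u' ++ u)
        (fun z => tt t (((1 : Fr m) ⊗ₜ[ℂ] op (q * wd (v ++ v'))) * z)) ?_ ?_
      · intro z z'
        show tt t _ = tt t _ + tt t _
        rw [mul_add, map_add]
      · intro p s hps
        show ‖tt t _‖ ≤ _
        rw [mul_tmul, tt_tmul, one_mul, ← mul_assoc, mul_comm]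
        refine basic hN hτ hx hr s (v ++ v') p q n ?_
        rw [List.length_append] at hps ⊢
        omega
    rw [h2]
    refine (norm_sub_le _ _).trans ?_
    have h3 := norm_sub_le (tt t (D k (wd (u' ++ u) * q * wd (v ++ v'))))
      (tt t (((wd (u' ++ u) * q) ⊗ₜ[ℂ] op 1) * D k (wd (v ++ v'))))
    rw [List.length_append] at b2 b3
    push_cast at b2 b3
    have e : (C + (u.length + v.length + (u'.length + v'.length) : ℝ)) * (R * Nq) =
      C * (R * Nq) + ((v.length : ℝ) + v'.length) * (R * Nq) +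
        ((u'.length : ℝ) + u.length) * (R * Nq) := by ring
    rw [e]
    linarith
  rw [hprod, add_mul, add_mul, map_add, map_add]
  have h5 := norm_add_le (tt t ((((wd u * q) ⊗ₜ[ℂ] op 1) * D k (wd v)) *
      (wd u' ⊗ₜ[ℂ] op (wd v'))) + tt t (((wd u ⊗ₜ[ℂ] op (wd v)) * D k q) *
      (wd u' ⊗ₜ[ℂ] op (wd v')))) (tt t ((((1 : Fr m) ⊗ₜ[ℂ] op (q * wd v)) * D k (wd u)) *
      (wd u' ⊗ₜ[ℂ] op (wd v'))))
  have h6 := norm_add_le (tt t ((((wd u * q) ⊗ₜ[ℂ] op 1) * D k (wd v)) *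
      (wd u' ⊗ₜ[ℂ] op (wd v')))) (tt t (((wd u ⊗ₜ[ℂ] op (wd v)) * D k q) *
      (wd u' ⊗ₜ[ℂ] op (wd v'))))
  refine h5.trans ?_
  have hL : (v.length : ℝ) + (C + (u.length + v.length + (u'.length + v'.length))) + u.length ≤
      (C + 4) * (1 + u.length + v.length) * (1 + u'.length + v'.length) := by
    have a1 : (0 : ℝ) ≤ u.length := Nat.cast_nonneg _
    have a2 : (0 : ℝ) ≤ v.length := Nat.cast_nonneg _
    have a3 : (0 : ℝ) ≤ u'.length := Nat.cast_nonneg _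
    have a4 : (0 : ℝ) ≤ v'.length := Nat.cast_nonneg _
    have a5 : 0 ≤ ((u.length : ℝ) + v.length) * (u'.length + v'.length) := by positivity
    have a6 : 0 ≤ C * ((u.length : ℝ) + v.length + (u'.length + v'.length) +
      ((u.length : ℝ) + v.length) * (u'.length + v'.length)) := by positivity
    nlinarith
  have hW : (C + 4) * wt r u v * Nq * wt r u' v' =
      ((C + 4) * (1 + u.length + v.length) * (1 + u'.length + v'.length)) * (R * Nq) := by
    rw [hR, hn, pow_add r (u.length + v.length)]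
    unfold wt
    ring
  rw [hW]
  have h7 := mul_le_mul_of_nonneg_right hL hRN
  linarith

end est

end NUF40

open NUF40 in
theorem nuf_thm : NUFStmt := by
  intro hN m A _ τ x r ν hdat D hD C hC0 hC k z z' q
  obtain ⟨hτ, hr, hx, hν⟩ := hdat
  have hNq0 : 0 ≤ n2 τ (FreeAlgebra.lift ℂ x q) := Real.sqrt_nonneg _
  have hwt : ∀ u v : List (Fin m), 0 ≤ wt r u v := by
    intro u v
    unfold wt
    have : (0 : ℝ) ≤ r := by linarith
    positivity
  have h1 : ∀ u v : List (Fin m), ‖tt (tx τ x) (D k (wd u * q * wd v) * z')‖ ≤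
      ((C + 4) * wt r u v * n2 τ (FreeAlgebra.lift ℂ x q)) * ν z' := by
    intro u v
    refine hν.max (fun z' => ‖tt (tx τ x) (D k (wd u * q * wd v) * z')‖) _ ?_ ?_ ?_ ?_ z'
    · exact mul_nonneg (mul_nonneg (by linarith) (hwt u v)) hNq0
    · intro a b
      show ‖tt _ _‖ ≤ ‖tt _ _‖ + ‖tt _ _‖
      rw [mul_add, map_add]
      exact norm_add_le _ _
    · intro c a
      show ‖tt _ _‖ ≤ _ * ‖tt _ _‖
      rw [mul_smul_comm, map_smul, norm_smul]
    · intro u' v'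
      exact word hN hτ hx hr hD C hC hC0 k q u v u' v'
  have h2 : ‖tt (tx τ x) (D k (ac z q) * z')‖ ≤
      ((C + 4) * ν z' * n2 τ (FreeAlgebra.lift ℂ x q)) * ν z := by
    refine hν.max (fun z => ‖tt (tx τ x) (D k (ac z q) * z')‖) _ ?_ ?_ ?_ ?_ z
    · exact mul_nonneg (mul_nonneg (by linarith) (hν.nonneg z')) hNq0
    · intro a b
      show ‖tt _ _‖ ≤ ‖tt _ _‖ + ‖tt _ _‖
      have e : ac (a + b) q = ac a q + ac b q := by
        unfold ac
        rw [map_add]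
        rfl
      rw [e, map_add, add_mul, map_add]
      exact norm_add_le _ _
    · intro c a
      show ‖tt _ _‖ ≤ _ * ‖tt _ _‖
      have e : ac (c • a) q = c • ac a q := by
        unfold ac
        rw [map_smul]
        rfl
      rw [e, map_smul, smul_mul_assoc, map_smul, norm_smul]
    · intro u v
      have e : ac (wd u ⊗ₜ[ℂ] op (wd v)) q = wd u * q * wd v := by
        unfold ac
        rw [AlgHom.mulLeftRight_apply, unop_op]
      show ‖tt _ (D k (ac (wd u ⊗ₜ[ℂ] op (wd v)) q) * z')‖ ≤ _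
      rw [e]
      refine (h1 u v).trans (le_of_eq ?_)
      ring
  refine h2.trans (le_of_eq ?_)
  ring

end Pool.PER
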